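import Mathlib
import Pool.Agent.H33B.Main

/-!
# Branching programs for the permanent have size `n ^ (3 - o(1))`

For every `ε > 0` and all sufficiently large `n`: every layered algebraic branching program over `ℂ`
(any number of layers of any widths, edges labelled by polynomials of degree at most one) which
computes the `n × n` permanent has at least `n ^ (3 - ε)` vertices.

Idea. Substituting affine forms for the variables does not change the number of vertices. With
`q + 1` stations of `h` rooms (`n ≈ C(q) h ^ (q + 1)`) a gadget turns the permanent into a form `F_θ` of
degree `k ≈ h ^ q / 2` in `N = h ^ (2 q + 1)` variables, which for `θ → 0` degenerates to a sum of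
`h ^ (q + 1)` elementary symmetric polynomials of degree `k` in disjoint sets of `h ^ q` variables.
If the program had few vertices, cutting it at every `(k - 1)`-th layer (Chatterjee, Kumar, She, Volk) would
give a polynomial `R` of degree less than `k` and few polynomials without constant term that generate
an ideal containing all partial derivatives of `F_θ - R`; together with `≈ N / 2` linear forms they have,
by the Nullstellensatz and the choice of `θ`, a quotient of finite dimension, which contradicts
Krull's height theorem.
-/

set_option autoImplicit false

open MvPolynomial

namespace Pool.Agent.Results.MP_499dc6_lc.BranchingPrograms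

/-- A layered algebraic branching program over `ℂ` with `s` vertices in the variables `σ`. Every
vertex lies in a layer, layer `0` consists of the source only, and edges go from a layer to the next
one; `label u v` is the label of the edge from `u` to `v`, a polynomial of degree at most one (if
there is no edge the label is `0`; labels between other layers are not used). -/
structure LayeredABP (σ : Type) (s : ℕ) where
  layer : Fin s → ℕ
  source : Fin s
  sink : Fin s
  label : Fin s → Fin s → MvPolynomial σ ℂ
  label_degree : ∀ u v, (label u v).totalDegree ≤ 1
  layer_source : layer source = 0
  eq_source : ∀ v, layer v = 0 → v = source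

namespace LayeredABP

variable {σ : Type} {s : ℕ} (P : LayeredABP σ s)

/-- The value of a vertex `v` of layer `j`: the sum over all paths from the source to `v` of the products
of the labels. It is `1` for the source, and for a vertex `v` of layer `j + 1` it is the sum over the
vertices `u` of layer `j` of the value of `u` times the label of the edge from `u` to `v`. -/
noncomputable def value : ℕ → Fin s → MvPolynomial σ ℂ
  | 0, _ => 1
  | j + 1, v => ∑ u : Fin s, if P.layer u = j then value j u * P.label u v else 0

/-- The polynomial computed by the program: the value of the sink. -/
noncomputable def output : MvPolynomial σ ℂ := P.value (P.layer P.sink) P.sink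

/-- The program as one in the sense of the helper files. -/
noncomputable def toABP : Pool.Agent.H33B.ABP σ (Fin s) where
  layer := P.layer
  src := P.source
  lab := P.label
  val v := P.value (P.layer v) v
  lab_deg := P.label_degree
  layer_src := P.layer_source
  eq_src := P.eq_source
  val_src := by
    show P.value (P.layer P.source) P.source = 1
    rw [P.layer_source]
    rfl
  val_eq v hv := by
    show P.value (P.layer v) v = ∑ u : Fin s, if P.layer u + 1 = P.layer v then
      P.value (P.layer u) u * P.label u v else 0
    obtain ⟨j, hj⟩ := Nat.exists_eq_succ_of_ne_zero hv
    rw [hj]
    show (∑ u : Fin s, if P.layer u = j then P.value j u * P.label u v else 0) = _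
    refine Finset.sum_congr rfl fun u _ => ?_
    by_cases hu : P.layer u = j
    · rw [if_pos hu, if_pos (by omega), hu]
    · rw [if_neg hu, if_neg (by omega)]

end LayeredABP

/-- **Layered algebraic branching programs which compute the `n × n` permanent have at least `n ^ (3 - ε)`
vertices, for all large `n`.** -/
theorem result (ε : ℝ) (hε : 0 < ε) : ∃ n₀ : ℕ, ∀ n : ℕ, n₀ ≤ n → ∀ (s : ℕ)
    (P : LayeredABP (Fin n × Fin n) s),
    P.output = (Matrix.of fun i j : Fin n =>
      (X (i, j) : MvPolynomial (Fin n × Fin n) ℂ)).permanent →
    (n : ℝ) ^ (3 - ε) ≤ s := by
  obtain ⟨n₀, hn₀⟩ := Pool.Agent.H33B.main ε hε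
  exact ⟨n₀, fun n hn s P hP => hn₀ n hn s P.toABP P.sink hP⟩

end Pool.Agent.Results.MP_499dc6_lc.BranchingPrograms
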