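import Mathlib
import Pool.Agent.Helper1x.CL.Bounds
import Pool.Agent.Helper1x.CL.GadgetFin

/-!
# Arithmetic circuits for the permanent have size `Ω(n² log n)`

Ingredients.
* A polynomial with `p` product steps has, after any affine substitution into `V` variables, at
  most `4^(V + 2p)` nondegenerate solutions of `∇ f = ℓ` (back-propagation turns the
  computation into a system of `V + 2p` quadratic equations in as many unknowns; the number
  of its nondegenerate zeros is bounded with the Bezoutian).
* A dense gadget writes a direct sum of `2 q m²` elementary symmetric polynomials `e_{q+1}`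
  in `2q` variables each (with `q m` of order `n`, `q` of order `√n`) as a limit of
  permanents of `n × n` matrices of affine polynomials.
* `e_{q+1}` in `2q` variables has at least `(q!)²` nondegenerate points with one and the same
  gradient, and such points persist under small perturbations.
-/

set_option autoImplicit false

namespace Pool.Agent.Results.MP_499dc6_lc.CircuitComplexity

open MvPolynomial

universe u

theorem result (k : Type u) [Field k] [CharZero k] (n : ℕ) (hn : 2 ^ 30 ≤ n) (s : ℕ)
    (g : Fin s → MvPolynomial (Fin n × Fin n) k) (P : Finset (Fin s))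
    (hprod : ∀ i ∈ P, ∃ a b : Fin s, a < i ∧ b < i ∧ g i = g a * g b)
    (hfree : ∀ i ∉ P, ∃ (c : k) (l : Fin n × Fin n → k) (a : Fin s → k),
      (∀ j, ¬ j < i → a j = 0) ∧ g i = C c + ∑ v, C (l v) * X v + ∑ j, C (a j) * g j)
    (out : Fin s)
    (hout : g out = ∑ σ : Equiv.Perm (Fin n), ∏ i : Fin n, X (i, σ i)) :
    (n : ℝ) ^ 2 * Real.log n ≤ 20000 * P.card :=
  H1CL.exact_bound H1CL.gadget n s hn P g
    (fun i => ⟨fun hi => hprod i hi, fun hi => hfree i hi⟩) out hout

end Pool.Agent.Results.MP_499dc6_lc.CircuitComplexity
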