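import Mathlib
import Pool.Agent.Helper1x.EP.Grenet
import Pool.Agent.Helper1x.EP.Exist

/-!
# Torus-equivariant determinantal representations of the permanent

A determinantal representation of a form `∑ a_σ x_{1σ(1)} ⋯ x_{nσ(n)}` with all `a_σ ≠ 0` which is equivariant under one
generic pair `(S, T)` of diagonal matrices has size at least `2 ^ n - 1`, unless the form is a scaled determinant
`det (λ_ij x_ij)`.  For the permanent the bound `2 ^ n - 1` is the exact value.  Exponential lower bounds hold even if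
the entries of the matrix are arbitrary polynomials of degree at most `n / 2`.
-/

set_option autoImplicit false

namespace Pool.Agent.Results.MP_499dc6_lc.EquivariantPermanent

open MvPolynomial

universe u

variable {K : Type u} [Field K] {n m : ℕ}

/-- A pair `(S, T)` of invertible diagonal matrices, given by the diagonal entries, is generic: if the exponents in a
relation `∏ s_i ^ a_i * ∏ t_j ^ b_j = 1` have absolute value at most two and the same sum on both sides, then they are
all equal. -/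
def Generic (s t : Fin n → Kˣ) : Prop :=
  ∀ a b : Fin n → ℤ, (∀ i, |a i| ≤ 2) → (∀ j, |b j| ≤ 2) → ∑ i, a i = ∑ j, b j →
    (∏ i, s i ^ a i) * ∏ j, t j ^ b j = 1 → ∃ k : ℤ, (∀ i, a i = k) ∧ ∀ j, b j = k

/-- the substitution `x ↦ S x T`, that is `x_ij ↦ s_i t_j x_ij` -/
noncomputable def subst (s t : Fin n → Kˣ) : MvPolynomial (Fin n × Fin n) K →ₐ[K] MvPolynomial (Fin n × Fin n) K :=
  aeval fun x => C ((s x.1 * t x.2 : Kˣ) : K) * X x

/-- `M` is equivariant under `(S, T)`: there are invertible matrices `B`, `D` over `K` with `M(SxT) = B M(x) D` or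
`M(SxT) = B M(x)ᵀ D`. -/
def Equivariant (s t : Fin n → Kˣ) (M : Matrix (Fin m) (Fin m) (MvPolynomial (Fin n × Fin n) K)) : Prop :=
  ∃ B D : Matrix (Fin m) (Fin m) K, IsUnit B.det ∧ IsUnit D.det ∧
    (M.map (subst s t) = B.map C * M * D.map C ∨ M.map (subst s t) = B.map C * M.transpose * D.map C)

/-- the form `∑ a_σ x_{1σ(1)} ⋯ x_{nσ(n)}` -/
noncomputable def form (a : Equiv.Perm (Fin n) → K) : MvPolynomial (Fin n × Fin n) K :=
  ∑ σ : Equiv.Perm (Fin n), C (a σ) * ∏ i, X (i, σ i)

/-- the matrix `(λ_ij x_ij)` -/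
noncomputable def scaled (lam : Fin n → Fin n → K) : Matrix (Fin n) (Fin n) (MvPolynomial (Fin n × Fin n) K) :=
  Matrix.of fun i j => C (lam i j) * X (i, j)

/-- the permanent of the generic `n × n` matrix -/
noncomputable def per (n : ℕ) (K : Type u) [Field K] : MvPolynomial (Fin n × Fin n) K :=
  (Matrix.of fun i j : Fin n => (X (i, j) : MvPolynomial (Fin n × Fin n) K)).permanent

lemma equivariant_iff (s t : Fin n → Kˣ) (M : Matrix (Fin m) (Fin m) (MvPolynomial (Fin n × Fin n) K)) :
    Equivariant s t M ↔ Pool.Agent.Helper1x.EQ.Equivariant (fun x => ((s x.1 * t x.2 : Kˣ) : K)) M := Iff.rfl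

lemma form_eq (a : Equiv.Perm (Fin n) → K) : form a = Pool.Agent.Helper1x.EP.permForm a := by
  unfold form Pool.Agent.Helper1x.EP.permForm
  refine Finset.sum_congr rfl fun σ _ => ?_
  rw [MvPolynomial.monomial_eq]
  congr 1
  rw [Pool.Agent.Helper1x.EP.pm,
    ← Finsupp.prod_finsetSum_index (h := fun x k => (MvPolynomial.X x : MvPolynomial (Fin n × Fin n) K) ^ k)
    (fun x => pow_zero _) (fun x a b => pow_add _ _ _)]
  refine Finset.prod_congr rfl fun i _ => ?_
  rw [Finsupp.prod_single_index (h := fun x k => (MvPolynomial.X x : MvPolynomial (Fin n × Fin n) K) ^ k)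
    (pow_zero _), pow_one]

lemma scaled_equivariant (lam : Fin n → Fin n → K) (s t : Fin n → Kˣ) : Equivariant s t (scaled lam) := by
  classical
  have hmap : ∀ f : Fin n → K, (Matrix.diagonal f).map C =
      (Matrix.diagonal fun i => C (f i) : Matrix _ _ (MvPolynomial (Fin n × Fin n) K)) := by
    intro f
    rw [Matrix.diagonal_map (by simp)]
  refine ⟨Matrix.diagonal fun i => ((s i : Kˣ) : K), Matrix.diagonal fun j => ((t j : Kˣ) : K), ?_, ?_, Or.inl ?_⟩
  · rw [Matrix.det_diagonal, ← Units.coe_prod]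
    exact Units.isUnit _
  · rw [Matrix.det_diagonal, ← Units.coe_prod]
    exact Units.isUnit _
  · ext1 i j
    rw [hmap, hmap, Matrix.mul_diagonal, Matrix.diagonal_mul, Matrix.map_apply, scaled, Matrix.of_apply, subst, map_mul,
      aeval_X, aeval_C, algebraMap_eq]
    simp only [Units.val_mul, map_mul]
    ring

theorem result :
    -- (1) the dichotomy for forms in which all monomials of permutations occur
    (∀ (K : Type u) [Field K] (n d m : ℕ) (a : Equiv.Perm (Fin n) → K) (s t : Fin n → Kˣ)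
      (M : Matrix (Fin m) (Fin m) (MvPolynomial (Fin n × Fin n) K)),
      2 ≤ n → (∀ σ, a σ ≠ 0) → Generic s t → (∀ i j, (M i j).totalDegree ≤ d) → M.det = form a → Equivariant s t M →
      ((d = 1 → 2 ^ n - 1 ≤ m) ∧ (1 ≤ d → d ≤ n → n.choose ((n - d + 1) / 2) ≤ m)) ∨
        ∃ lam : Fin n → Fin n → K, form a = (scaled lam).det) ∧
    -- (2) the permanent: lower bound
    (∀ (K : Type u) [Field K] (n d m : ℕ) (s t : Fin n → Kˣ)
      (M : Matrix (Fin m) (Fin m) (MvPolynomial (Fin n × Fin n) K)),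
      3 ≤ n → (2 : K) ≠ 0 → Generic s t → (∀ i j, (M i j).totalDegree ≤ d) → M.det = per n K → Equivariant s t M →
      (d = 1 → 2 ^ n - 1 ≤ m) ∧ (1 ≤ d → d ≤ n → n.choose ((n - d + 1) / 2) ≤ m)) ∧
    -- (3) the permanent: upper bound
    (∀ (K : Type u) [Field K] (n : ℕ), 1 ≤ n →
      ∃ M : Matrix (Fin (2 ^ n - 1)) (Fin (2 ^ n - 1)) (MvPolynomial (Fin n × Fin n) K),
        (∀ i j, (M i j).totalDegree ≤ 1) ∧ M.det = per n K ∧ ∀ s t : Fin n → Kˣ, Equivariant s t M) ∧
    -- (4) scaled determinants are equivariant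
    (∀ (K : Type u) [Field K] (n : ℕ) (lam : Fin n → Fin n → K) (s t : Fin n → Kˣ), Equivariant s t (scaled lam)) ∧
    -- (5) generic pairs exist over infinite fields, also with `det S * det T = 1`
    (∀ (K : Type u) [Field K] [Infinite K] (n : ℕ), 1 ≤ n →
      (∃ s t : Fin n → Kˣ, Generic s t ∧ ((∏ i, s i) * ∏ j, t j) ^ 2 ≠ 1) ∧
      ∃ s t : Fin n → Kˣ, Generic s t ∧ (∏ i, s i) * ∏ j, t j = 1) := by
  have hone : ∀ (K : Type u) [Field K] (n : ℕ), per n K = form fun _ => 1 := by
    intro K _ n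
    rw [form_eq]
    exact Pool.Agent.Helper1x.EP.per_eq K
  refine ⟨fun K _ n d m a s t M hn ha hg hd hdet hE => ?_, fun K _ n d m s t M hn h2 hg hd hdet hE => ?_,
    fun K _ n hn => ?_, fun K _ n lam s t => scaled_equivariant lam s t, fun K _ _ n hn =>
    ⟨Pool.Agent.Helper1x.EP.exists_pair K hn, Pool.Agent.Helper1x.EP.exists_pair_one K hn⟩⟩
  · have h := Pool.Agent.Helper1x.EP.dichotomy_field hn hd ha (by rw [hdet, form_eq]) hg hE
    rw [Fintype.card_fin] at h
    rcases h with h | ⟨lam, h⟩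
    · exact Or.inl h
    · right
      refine ⟨fun i j => lam (i, j), ?_⟩
      rw [form_eq, h]
      rfl
  · have h := Pool.Agent.Helper1x.EP.dichotomy_field (by omega) (a := fun _ => 1) hd (fun _ => one_ne_zero)
      (by rw [hdet, hone, form_eq]) hg hE
    rw [Fintype.card_fin] at h
    rcases h with h | ⟨lam, h⟩
    · exact h
    · exfalso
      refine Pool.Agent.Helper1x.EP.not_scaled hn (F := Pool.Agent.Helper1x.EP.permForm fun _ => (1 : K)) ?_ ⟨lam, ?_⟩
      · intro σ
        simp only [Pool.Agent.Helper1x.EP.coeff_permForm, mul_one]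
        intro h3
        apply h2
        rw [← h3]
        norm_num
      · intro σ
        rw [h, Pool.Agent.Helper1x.EP.coeff_sdet]
  · obtain ⟨M, hM, hE⟩ := Pool.Agent.Helper1x.EP.grenet K hn
    exact ⟨M, hM.1, by rw [hM.2, hone, form_eq], hE⟩

end Pool.Agent.Results.MP_499dc6_lc.EquivariantPermanent
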