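import Mathlib
import Pool.Agent.Helper1x.FS.Final

/-!
# Formula size and sparse determinantal representations of the permanent

Over every field of characteristic zero, for `n ≥ 2 ^ 10`:

* every arithmetic formula with gates `+`, `×`, `÷` that computes the `n × n` permanent has at
  least `n ^ 4 / (50 log n)` leaves labelled by variables;
* in every square matrix of affine forms, of any size, whose determinant is the permanent, there
  are at least `n ^ 3 / (7 log n)` occurrences of variables (pairs of an entry and a variable
  that occurs in the entry), while the determinant itself has such a matrix with `n ^ 2`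
  occurrences.
-/

set_option autoImplicit false

namespace Pool.Agent.Results.MP_499dc6_lc.FormulaSize

open MvPolynomial

universe u

/-- arithmetic formulas over `K` in the variables `σ`, with gates `+`, `×`, `÷` of fan-in two and
leaves labelled by variables or by constants of `K` -/
inductive Formula (σ : Type) (K : Type u) : Type u
  | var (v : σ) : Formula σ K
  | const (c : K) : Formula σ K
  | add (F G : Formula σ K) : Formula σ K
  | mul (F G : Formula σ K) : Formula σ K
  | div (F G : Formula σ K) : Formula σ K

/-- the rational function computed by a formula (a quotient by `0` is read as `0`) -/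
noncomputable def Formula.value {σ : Type} {K : Type u} [Field K] :
    Formula σ K → FractionRing (MvPolynomial σ K)
  | .var v => algebraMap (MvPolynomial σ K) (FractionRing (MvPolynomial σ K)) (X v)
  | .const c => algebraMap (MvPolynomial σ K) (FractionRing (MvPolynomial σ K)) (C c)
  | .add F G => F.value + G.value
  | .mul F G => F.value * G.value
  | .div F G => F.value / G.value

/-- the number of leaves labelled by variables -/
def Formula.size {σ : Type} {K : Type u} : Formula σ K → ℕ
  | .var _ => 1
  | .const _ => 0
  | .add F G => F.size + G.size
  | .mul F G => F.size + G.size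
  | .div F G => F.size + G.size

/-- the permanent of the generic `n × n` matrix -/
noncomputable def per (n : ℕ) (K : Type u) [Field K] : MvPolynomial (Fin n × Fin n) K :=
  (Matrix.of fun i j : Fin n => (X (i, j) : MvPolynomial (Fin n × Fin n) K)).permanent

/-- translation to the library -/
def conv {σ : Type} {K : Type u} : Formula σ K → H1FS.RFml σ K
  | .var v => .var v
  | .const c => .const c
  | .add F G => .add (conv F) (conv G)
  | .mul F G => .mul (conv F) (conv G)
  | .div F G => .div (conv F) (conv G)

lemma conv_val {σ : Type} {K : Type u} [Field K] (F : Formula σ K) :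
    (conv F).val = F.value := by
  induction F with
  | var v => rfl
  | const c => rfl
  | add F G hF hG => simp only [conv, H1FS.RFml.val, Formula.value, hF, hG]
  | mul F G hF hG => simp only [conv, H1FS.RFml.val, Formula.value, hF, hG]
  | div F G hF hG => simp only [conv, H1FS.RFml.val, Formula.value, hF, hG]

lemma conv_size {σ : Type} {K : Type u} (F : Formula σ K) : (conv F).size = F.size := by
  induction F with
  | var v => rfl
  | const c => rfl
  | add F G hF hG => simp only [conv, H1FS.RFml.size, Formula.size, hF, hG]
  | mul F G hF hG => simp only [conv, H1FS.RFml.size, Formula.size, hF, hG]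
  | div F G hF hG => simp only [conv, H1FS.RFml.size, Formula.size, hF, hG]

lemma per_eq (n : ℕ) (K : Type u) [Field K] : per n K = H1FS.permN n K := by
  unfold per
  rw [← Matrix.permanent_transpose]
  rfl

theorem result (K : Type u) [Field K] [CharZero K] (n : ℕ) (hn : 2 ^ 10 ≤ n) :
    (∀ F : Formula (Fin n × Fin n) K, F.value = algebraMap _ _ (per n K) →
      (n : ℝ) ^ 4 ≤ 50 * Real.log n * (F.size : ℝ)) ∧
    (∀ (m : ℕ) (M : Matrix (Fin m) (Fin m) (MvPolynomial (Fin n × Fin n) K)),
      (∀ i j, (M i j).totalDegree ≤ 1) → M.det = per n K →
      (n : ℝ) ^ 3 ≤ 7 * Real.log n * (∑ i, ∑ j, (M i j).vars.card : ℕ)) := by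
  obtain ⟨h1, h2⟩ := H1FS.bounds_perm (K := K) n hn
  rw [per_eq]
  refine ⟨fun F hF => ?_, h2⟩
  rw [← conv_size]
  exact h1 (conv F) (by rw [conv_val, hF])

end Pool.Agent.Results.MP_499dc6_lc.FormulaSize
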